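import Pool.Agent.H98.RFZ.Targets2

/-!
# Row A2 of the board rfz (helper98, MP_057a7e_pr)

Scaling up, probability: union bound over pairs of cells and independence of disjoint balls.
-/

set_option autoImplicit false

open MeasureTheory ProbabilityTheory Filter Topology

namespace Pool.Agent.H13.RFZ

open Pool.Agent.H98.RFC Pool.Agent.H98.RFZ

theorem gam_prob : IsProbabilityMeasure gam := by
  unfold gam
  infer_instance

theorem nsq_tri (a b : Site) : nsq (a - b) ≤ 2 * nsq a + 2 * nsq b := by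
  unfold nsq
  simp only [Prod.fst_sub, Prod.snd_sub]
  nlinarith [sq_nonneg (a.1 + b.1), sq_nonneg (a.2 + b.2)]

theorem disj_eb {z₁ z₂ : Site} {v : ℕ} (h : (20 * (v : ℤ)) ^ 2 < nsq (z₁ - z₂)) :
    Disjoint (eb z₁ (10 * v)) (eb z₂ (10 * v)) := by
  rw [Finset.disjoint_left]
  intro x h1 h2
  have e1 := (Finset.mem_filter.1 h1).2
  have e2 := (Finset.mem_filter.1 h2).2
  have e3 := nsq_tri (x - z₂) (x - z₁)
  have e4 : x - z₂ - (x - z₁) = z₁ - z₂ := by abel
  rw [e4] at e3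
  push_cast at e1 e2
  nlinarith

/-- The grid points. -/
noncomputable def G (v w : ℕ) : Finset Site :=
  Finset.Icc (-((9 * w / v : ℕ) : ℤ)) ((9 * w / v : ℕ) : ℤ) ×ˢ
    Finset.Icc (-((9 * w / v : ℕ) : ℤ)) ((9 * w / v : ℕ) : ℤ)

theorem mem_G {v w : ℕ} (hv : 0 < v) {y : Site} (h : sm v y ∈ eb 0 (9 * w)) : y ∈ G v w := by
  have h1 := (Finset.mem_filter.1 h).1
  unfold bx sm at h1
  rw [Finset.mem_product, Finset.mem_Icc, Finset.mem_Icc] at h1
  simp only [Prod.fst_zero, Prod.snd_zero, zero_sub, zero_add] at h1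
  obtain ⟨⟨a1, a2⟩, a3, a4⟩ := h1
  have hv' : (0 : ℤ) < v := by exact_mod_cast hv
  unfold G
  rw [Finset.mem_product, Finset.mem_Icc, Finset.mem_Icc]
  push_cast at a1 a2 a3 a4 ⊢
  refine ⟨⟨?_, ?_⟩, ?_, ?_⟩
  · have : -y.1 ≤ 9 * (w : ℤ) / v := by
      rw [Int.le_ediv_iff_mul_le hv']
      nlinarith
    linarith
  · rw [Int.le_ediv_iff_mul_le hv']
    nlinarith
  · have : -y.2 ≤ 9 * (w : ℤ) / v := by
      rw [Int.le_ediv_iff_mul_le hv']
      nlinarith
    linarith
  · rw [Int.le_ediv_iff_mul_le hv']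
    nlinarith

theorem card_G {v w : ℕ} (hv : 0 < v) (hw : 100 * v ≤ w) :
    ((G v w).card : ℝ) ≤ (20 * (w : ℝ) / (v : ℝ)) ^ 2 := by
  have hv' : (0 : ℝ) < v := by exact_mod_cast hv
  unfold G
  rw [Finset.card_product, Int.card_Icc]
  have e1 : ((9 * w / v : ℕ) : ℤ) + 1 - -((9 * w / v : ℕ) : ℤ) =
      ((2 * (9 * w / v) + 1 : ℕ) : ℤ) := by
    push_cast
    ring
  rw [e1, Int.toNat_natCast]
  have e2 : ((9 * w / v : ℕ) : ℝ) ≤ 9 * (w : ℝ) / v := by
    have := Nat.cast_div_le (α := ℝ) (m := 9 * w) (n := v)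
    push_cast at this
    exact this
  have e3 : (1 : ℝ) ≤ 2 * (w : ℝ) / v := by
    rw [le_div_iff₀ hv']
    have : (100 * v : ℝ) ≤ w := by exact_mod_cast hw
    linarith
  have e4 : ((2 * (9 * w / v) + 1 : ℕ) : ℝ) ≤ 20 * (w : ℝ) / v := by
    push_cast
    have e5 : 20 * (w : ℝ) / v = 2 * (9 * (w : ℝ) / v) + 2 * (w : ℝ) / v := by ring
    rw [e5]
    linarith
  push_cast at e4 ⊢
  rw [pow_two]
  apply mul_le_mul e4 e4 (by positivity)
  positivity

theorem pf_A2 (hA1 : B_A1) (hMEA : B_MEA) (hIND : Z_IND) : B_A2 := by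
  intro R J hJ ε N α β c hα hαβ hN v w hv hw hc hc'
  have := gam_prob
  have hv0 : 0 < v := by omega
  set A : Site → Set (Site → ℝ) := fun y =>
    {η : Site → ℝ | BadN R J (fun x => ε * η x) N v (sm v y)} with hA
  set T : Site × Site → Set (Site → ℝ) := fun q =>
    if (20 * (v : ℤ)) ^ 2 < nsq (sm v q.1 - sm v q.2) then A q.1 ∩ A q.2 else ∅ with hT
  have hsub : {η : Site → ℝ | BadN R J (fun x => ε * η x) (fun x => c * N x) w 0} ⊆
      ⋃ q ∈ G v w ×ˢ G v w, T q := by
    intro η hη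
    obtain ⟨y₁, y₂, h1, h2, h3, h4, h5⟩ :=
      hA1 R J hJ (fun x => ε * η x) N α β c hα hαβ hN v w hv hw hc hc' hη
    rw [Set.mem_iUnion₂]
    refine ⟨(y₁, y₂), Finset.mem_product.2 ⟨mem_G hv0 h1, mem_G hv0 h2⟩, ?_⟩
    simp only [hT]
    rw [if_pos h3]
    exact ⟨h4, h5⟩
  have hp0 : 0 ≤ pB R J ε N v := ENNReal.toReal_nonneg
  have hTq : ∀ q : Site × Site, gam.real (T q) ≤ (pB R J ε N v) ^ 2 := by
    intro q
    simp only [hT]
    split_ifs with hq
    · have hd := disj_eb hq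
      have hi := hIND 2 ![eb (sm v q.1) (10 * v), eb (sm v q.2) (10 * v)] ![A q.1, A q.2] (by
        intro i j hij
        fin_cases i <;> fin_cases j
        · exact absurd rfl hij
        · exact hd
        · exact hd.symm
        · exact absurd rfl hij) (by
        intro i
        fin_cases i
        · exact (hMEA R J hJ ε N v (sm v q.1)).1
        · exact (hMEA R J hJ ε N v (sm v q.2)).1) (by
        intro i
        fin_cases i
        · exact (hMEA R J hJ ε N v (sm v q.1)).2.1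
        · exact (hMEA R J hJ ε N v (sm v q.2)).2.1)
      have hI : (⋂ i : Fin 2, (![A q.1, A q.2] : Fin 2 → Set (Site → ℝ)) i) = A q.1 ∩ A q.2 := by
        ext η
        simp [Fin.forall_fin_two]
      rw [hI, Fin.prod_univ_two] at hi
      have e1 : gam.real (A q.1 ∩ A q.2) = gam.real (A q.1) * gam.real (A q.2) := by
        unfold Measure.real
        rw [hi, ENNReal.toReal_mul]
        rfl
      have e2 : gam.real (A q.1) = pB R J ε N v := (hMEA R J hJ ε N v (sm v q.1)).2.2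
      have e3 : gam.real (A q.2) = pB R J ε N v := (hMEA R J hJ ε N v (sm v q.2)).2.2
      rw [e1, e2, e3, pow_two]
    · rw [measureReal_empty]
      positivity
  calc pB R J ε (fun x => c * N x) w
      = gam.real {η : Site → ℝ | BadN R J (fun x => ε * η x) (fun x => c * N x) w 0} := rfl
    _ ≤ gam.real (⋃ q ∈ G v w ×ˢ G v w, T q) := measureReal_mono hsub (measure_ne_top _ _)
    _ ≤ ∑ q ∈ G v w ×ˢ G v w, gam.real (T q) := measureReal_biUnion_finset_le _ _
    _ ≤ ∑ q ∈ G v w ×ˢ G v w, (pB R J ε N v) ^ 2 := Finset.sum_le_sum (fun q _ => hTq q)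
    _ = ((G v w).card : ℝ) * ((G v w).card : ℝ) * (pB R J ε N v) ^ 2 := by
        rw [Finset.sum_const, Finset.card_product, nsmul_eq_mul]
        push_cast
        ring
    _ ≤ (20 * (w : ℝ) / (v : ℝ)) ^ 4 * (pB R J ε N v) ^ 2 := by
        apply mul_le_mul_of_nonneg_right _ (by positivity)
        have h1 := card_G hv0 hw
        calc ((G v w).card : ℝ) * ((G v w).card : ℝ)
            ≤ (20 * (w : ℝ) / (v : ℝ)) ^ 2 * (20 * (w : ℝ) / (v : ℝ)) ^ 2 :=
              mul_le_mul h1 h1 (by positivity) (by positivity)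
          _ = _ := by ring

end Pool.Agent.H13.RFZ
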