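import Pool.Agent.H98.RFZ.Targets

/-!
# Row INF of the board rfz (helper98, MP_057a7e_pr)

The influence at temperature zero.
-/

set_option autoImplicit false

namespace Pool.Agent.H13.RFZ

open Pool.Agent.H98.RFC Pool.Agent.H98.RFZ

theorem mg0_of_one (R : ℕ) (J h : Site → ℝ) (Λ : Finset Site) (B : Set Site) (P : Finset Site)
    (h1 : (gs R J h Λ B).card = 1) (hP : P ∈ gs R J h Λ B) (x : Site) :
    mg0 R J h Λ B x = sg (↑P ∪ B) x := by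
  obtain ⟨Q, hQ⟩ := Finset.card_eq_one.mp h1
  have hPQ : P = Q := by
    rw [hQ] at hP
    exact Finset.mem_singleton.mp hP
  unfold mg0
  rw [hQ, hPQ]
  simp

theorem pf_INF (hLAT : Z_LAT) (hMB : Z_MB) : Z_INF := by
  intro R J hJ h Λ h1 h2 x hx
  have hd1 : Disjoint ((↑Λ : Set Site)ᶜ) (↑Λ : Set Site) := disjoint_compl_left
  have hd2 : Disjoint (∅ : Set Site) (↑Λ : Set Site) := Set.empty_disjoint _
  obtain ⟨-, hp, -, -⟩ := hLAT R J hJ h Λ (↑Λ)ᶜ hd1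
  obtain ⟨-, hp0, hn, hsub⟩ := hLAT R J hJ h Λ ∅ hd2
  have hmb := (hMB R J hJ h Λ ∅ (↑Λ)ᶜ (Set.empty_subset _) hd2 hd1).1
  have hsub' : gn R J h Λ ∅ ⊆ gp R J h Λ (↑Λ)ᶜ := (hsub _ hp0).1.trans hmb
  have e1 := mg0_of_one R J h Λ (↑Λ)ᶜ _ h1 hp x
  have e2 := mg0_of_one R J h Λ ∅ _ h2 hn x
  have hx1 : x ∉ ((↑Λ : Set Site)ᶜ) := fun hc => hc hx
  unfold infl
  rw [if_pos rfl]
  unfold inf0
  rw [e1, e2]
  unfold sg Ds
  by_cases hP : x ∈ gp R J h Λ (↑Λ)ᶜ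
  · by_cases hN : x ∈ gn R J h Λ ∅
    · simp [hP, hN]
    · simp [hP, hN]
  · have hN : x ∉ gn R J h Λ ∅ := fun hc => hP (hsub' hc)
    simp [hP, hN, hx]

end Pool.Agent.H13.RFZ
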